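import Mathlib
import Pool.Agent.N251.GA.Leaves

/-!
# Project GA (helper251): the second rule over `R` (helper572, after N757/OC/Mean and Mean3)
-/

set_option autoImplicit false

namespace Pool.Agent.N572.GAMean2

open Pool.Agent.N251.GA

/-- `(w + c) ^ n = w ^ n + n w ^ (n - 1) c + c² T` -/
def TT {R : Type} [CommRing R] (w c : R) : ℕ → R
  | 0 => 0
  | n + 1 => (w + c) * TT w c n + n * w ^ (n - 1)

theorem TT_spec {R : Type} [CommRing R] (w c : R) (n : ℕ) :
    (w + c) ^ n = w ^ n + n * w ^ (n - 1) * c + c ^ 2 * TT w c n := by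
  induction n with
  | zero => simp [TT]
  | succ n ih =>
    rw [pow_succ, ih, TT]
    rcases n with _ | n
    · simp [TT]
    · simp only [Nat.add_sub_cancel]
      push_cast
      ring

theorem TT_mod {R : Type} [CommRing R] (w c : R) (n : ℕ) :
    c ∣ 2 * w ^ 2 * TT w c n - n * (n - 1) * w ^ n := by
  induction n with
  | zero => simp [TT]
  | succ n ih =>
    obtain ⟨r, hr⟩ := ih
    refine ⟨w * r + 2 * w ^ 2 * TT w c n, ?_⟩
    rw [TT]
    rcases n with _ | n
    · simp only [TT] at hr ⊢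
      push_cast at hr ⊢
      linear_combination w * hr
    · simp only [Nat.add_sub_cancel]
      push_cast at hr ⊢
      linear_combination w * hr

theorem TT_map {R : Type} [CommRing R] (σ : R →+* ℂ) (w c : R) (n : ℕ) :
    σ (TT w c n) = TT (σ w) (σ c) n := by
  induction n with
  | zero => simp [TT]
  | succ n ih => rw [TT, TT, map_add, map_mul, map_add, ih, map_mul, map_natCast, map_pow]

theorem TT_bound (w c : ℂ) (B : ℝ) (hw : ‖w‖ ≤ B) (hc : ‖w + c‖ ≤ B) (n : ℕ) :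
    ‖TT w c n‖ * B ^ 2 ≤ n ^ 2 * B ^ n := by
  have hB : 0 ≤ B := (norm_nonneg _).trans hw
  induction n with
  | zero => simp [TT]
  | succ n ih =>
    rw [TT]
    have h1 : ‖(w + c) * TT w c n + n * w ^ (n - 1)‖ ≤ B * ‖TT w c n‖ + n * ‖w‖ ^ (n - 1) := by
      calc ‖(w + c) * TT w c n + n * w ^ (n - 1)‖ ≤ ‖(w + c) * TT w c n‖ + ‖n * w ^ (n - 1)‖ :=
            norm_add_le _ _
        _ = ‖w + c‖ * ‖TT w c n‖ + n * ‖w‖ ^ (n - 1) := by
            rw [norm_mul, norm_mul, norm_pow, Complex.norm_natCast]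
        _ ≤ _ := by
            have := mul_le_mul_of_nonneg_right hc (norm_nonneg (TT w c n))
            linarith
    have h2 : (n : ℝ) * ‖w‖ ^ (n - 1) * B ^ 2 ≤ n * B ^ (n + 1) := by
      rcases n with _ | n
      · simp
      · simp only [Nat.add_sub_cancel]
        have h3 : ‖w‖ ^ n ≤ B ^ n := pow_le_pow_left₀ (norm_nonneg _) hw n
        calc ((n + 1 : ℕ) : ℝ) * ‖w‖ ^ n * B ^ 2 ≤ ((n + 1 : ℕ) : ℝ) * B ^ n * B ^ 2 := by
              gcongr
          _ = _ := by ring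
    calc ‖(w + c) * TT w c n + n * w ^ (n - 1)‖ * B ^ 2
        ≤ (B * ‖TT w c n‖ + n * ‖w‖ ^ (n - 1)) * B ^ 2 :=
          mul_le_mul_of_nonneg_right h1 (by positivity)
      _ = B * (‖TT w c n‖ * B ^ 2) + n * ‖w‖ ^ (n - 1) * B ^ 2 := by ring
      _ ≤ B * (n ^ 2 * B ^ n) + n * B ^ (n + 1) := add_le_add (mul_le_mul_of_nonneg_left ih hB) h2
      _ = (n ^ 2 + n) * B ^ (n + 1) := by ring
      _ ≤ _ := by
          apply mul_le_mul_of_nonneg_right _ (by positivity)
          push_cast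
          nlinarith [(Nat.cast_nonneg n : (0 : ℝ) ≤ n)]

/-- **The second rule over `R`** -/
theorem t : LeafMean' := by
  intro R _ D p q N hp hq hN h
  haveI := isDomain D
  haveI := charZero D
  have hp1 : (2 : ℝ) ≤ p := by exact_mod_cast hp
  have hq1 : (2 : ℝ) ≤ q := by exact_mod_cast hq
  have hpC : (p : ℂ) ≠ 0 := by exact_mod_cast (show p ≠ 0 by omega)
  obtain ⟨C₁, hC₁, hlow⟩ := hom_lower (fun z => z.1 * ((((p : ℂ) + 1) * z.2 - z.1) / p) ^ p)
    (fun z => z.2 ^ (p + 1)) (by fun_prop) (by fun_prop) (p + 1) (by omega)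
    (fun t z => by
      simp only [Prod.smul_fst, Prod.smul_snd, smul_eq_mul]
      have e : (((p : ℂ) + 1) * (t * z.2) - t * z.1) / p =
          t * ((((p : ℂ) + 1) * z.2 - z.1) / p) := by ring
      rw [e, mul_pow]
      ring)
    (fun t z => by
      simp only [Prod.smul_snd, smul_eq_mul]
      rw [mul_pow])
    (by
      rintro ⟨a, b⟩ h1 h2
      simp only at h1 h2
      have hb : b = 0 := (pow_eq_zero_iff (by omega)).1 h2
      rw [hb, mul_zero, zero_sub] at h1
      have ha : a = 0 := by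
        rcases mul_eq_zero.1 h1 with h3 | h3
        · exact h3
        · have h4 := (pow_eq_zero_iff (by omega)).1 h3
          rw [div_eq_zero_iff] at h4
          rcases h4 with h4 | h4
          · exact neg_eq_zero.1 h4
          · exact absurd h4 hpC
      rw [ha, hb]
      rfl)
  obtain ⟨C₂, hC₂⟩ : ∃ C₂ : ℝ, C₂ = (1 + p) ^ 2 * 3 ^ (1 + p) := ⟨_, rfl⟩
  have hC₂0 : 0 ≤ C₂ := by rw [hC₂]; positivity
  obtain ⟨K, hK⟩ : ∃ K : ℝ, K = 1 + C₁ + C₂ := ⟨_, rfl⟩
  unfold OneCusp at h ⊢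
  refine transfer D (p + 1) ((p - 1 : ℕ) : ℝ) K (by linarith) ?_ ?_ ?_ ?_ ?_ ?_ h
  · have h1 : 1 / (p : ℝ) ≤ 1 / 2 := one_div_le_one_div_of_le (by norm_num) hp1
    have h2 : 1 / (((q * (p + 1) : ℕ) : ℝ)) ≤ 1 / 6 := by
      refine one_div_le_one_div_of_le (by norm_num) ?_
      push_cast
      nlinarith
    linarith
  · apply le_of_eq
    have hp0 : (p : ℝ) ≠ 0 := by linarith
    have hq0 : (q : ℝ) ≠ 0 := by linarith
    have hp2 : (p : ℝ) + 1 ≠ 0 := by linarith
    rw [Nat.cast_sub (by omega : 1 ≤ p)]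
    push_cast
    field_simp
    ring
  · rintro ⟨x, y⟩ - i
    positivity
  · rintro ⟨x, y⟩ ⟨hxy, hne, hdvd⟩
    simp only at hxy hne hdvd ⊢
    by_cases hx : x = 0
    · have hy : IsUnit y := by
        rw [hx] at hxy
        exact isCoprime_zero_left.1 hxy
      refine le_norm_prod D (x := y ^ q) (pow_ne_zero q hy.ne_zero) fun i => ?_
      rw [map_pow, norm_pow]
      exact le_max_right _ _
    · refine le_norm_prod D (x := x ^ p) (pow_ne_zero p hx) fun i => ?_
      rw [map_pow, norm_pow]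
      exact le_max_left _ _
  · rintro ⟨x, y⟩ ⟨hxy, hne, hdvd⟩
    exact sub_ne_zero.2 hne
  rintro ⟨x, y⟩ ⟨hxy, hne, hdvd⟩
  simp only at hxy hne hdvd
  right
  obtain ⟨d₁, hd₁⟩ := hdvd
  obtain ⟨W, hW⟩ : ∃ W : R, W = y ^ q := ⟨_, rfl⟩
  obtain ⟨d, hd⟩ : ∃ d : R, d = N * (2 * ((1 + p) * p)) * d₁ := ⟨_, rfl⟩
  have hF : x ^ p - y ^ q = p * d := by rw [hd₁, hd]; push_cast; ring
  have hu : x ^ p = W + p * d := by rw [hW]; linear_combination hF
  have hF0 : x ^ p - y ^ q ≠ 0 := sub_ne_zero.2 hne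
  have huW : IsCoprime (x ^ p) W := by rw [hW]; exact hxy.pow
  have hWd : IsCoprime W d := by
    have h1 : IsCoprime W (p * d) := by
      have h2 := huW.symm
      rw [hu] at h2
      have h3 := h2.add_mul_left_right (-1)
      rwa [show W + ↑p * d + W * -1 = ↑p * d by ring] at h3
    exact h1.of_mul_right_right
  obtain ⟨G, hG⟩ : ∃ G : R, G = TT (W - d) d (1 + p) := ⟨_, rfl⟩
  have hwd : IsCoprime (W - d) d := by
    have := hWd.add_mul_left_left (-1)
    rwa [show W + d * -1 = W - d by ring] at this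
  have hd0 : d ≠ 0 := by
    intro h0
    rw [h0, mul_zero] at hF
    exact hF0 hF
  have hpR : (p : R) ≠ 0 := by exact_mod_cast (show p ≠ 0 by omega)
  have hpR1 : (1 + p : R) ≠ 0 := by exact_mod_cast (show 1 + p ≠ 0 by omega)
  have hG0 : G ≠ 0 := by
    intro h0
    have h1 := TT_mod (W - d) d (1 + p)
    rw [← hG, h0, mul_zero, zero_sub, dvd_neg] at h1
    obtain ⟨s, hs⟩ := (hwd.symm.pow_right (n := 1 + p)).dvd_of_dvd_mul_right h1
    push_cast at hs
    have hs' : (1 + p : R) * p = d * s := by linear_combination hs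
    have h3 : ((1 + p : R) * p) * (2 * (N * d₁ * s)) = ((1 + p : R) * p) * 1 := by
      rw [mul_one]
      conv_rhs => rw [hs', hd]
      ring
    have h4 := mul_left_cancel₀ (mul_ne_zero hpR1 hpR) h3
    refine nat_not_unit D (n := 2) le_rfl (isUnit_iff_exists_inv.2 ⟨N * d₁ * s, ?_⟩)
    push_cast
    exact h4
  have hmain : (x * (W - d)) ^ p - y ^ (q * (p + 1)) = -(d ^ 2 * G) := by
    have h1 := TT_spec (W - d) d (1 + p)
    rw [← hG, sub_add_cancel, Nat.add_sub_cancel_left] at h1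
    have h2 : (x * (W - d)) ^ p = (W + p * d) * (W - d) ^ p := by rw [mul_pow, hu]
    have h3 : y ^ (q * (p + 1)) = W ^ (1 + p) := by rw [hW, ← pow_mul, add_comm]
    rw [h2, h3]
    push_cast at h1
    linear_combination -h1
  -- sizes
  have hpair : ∀ i, ‖(D.σ i (x ^ p), D.σ i W)‖ = max (‖D.σ i x‖ ^ p) (‖D.σ i y‖ ^ q) := by
    intro i
    rw [Prod.norm_def, hW]
    simp only [map_pow, norm_pow]
  have hpos : ∀ i, 0 < max (‖D.σ i x‖ ^ p) (‖D.σ i y‖ ^ q) := by
    intro i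
    by_cases hx : x = 0
    · have hy : IsUnit y := by
        rw [hx] at hxy
        exact isCoprime_zero_left.1 hxy
      refine lt_of_lt_of_le ?_ (le_max_right _ _)
      exact pow_pos (norm_pos_iff.2 (sigma_ne_zero D hy.ne_zero i)) q
    · refine lt_of_lt_of_le ?_ (le_max_left _ _)
      exact pow_pos (norm_pos_iff.2 (sigma_ne_zero D hx i)) p
  have hsu : ∀ i, D.σ i (x ^ p) = D.σ i W + p * D.σ i d := by
    intro i
    rw [hu, map_add, map_mul, map_natCast]
  refine ⟨(x * (W - d), y), ⟨?_, ?_, ?_⟩, ?_, G, hG0, mul_ne_zero hF0 hG0, ?_, 2, ?_⟩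
  · simp only
    have h2 : IsCoprime (W - d) y := by
      have h3 : IsCoprime (-d + W * 1) W := (hWd.symm.neg_left.add_mul_left_left 1)
      rw [mul_one, show -d + W = W - d by ring] at h3
      nth_rewrite 2 [hW] at h3
      exact (IsCoprime.pow_right_iff (by omega)).1 h3
    exact hxy.mul_left h2
  · simp only
    intro h1
    rw [h1, sub_self] at hmain
    exact neg_ne_zero.2 (mul_ne_zero (pow_ne_zero 2 hd0) hG0) hmain.symm
  · simp only
    rw [hmain]
    have h1 : (N : R) ∣ d := ⟨2 * ((1 + p) * p) * d₁, by rw [hd]; ring⟩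
    exact (dvd_neg.2 ((h1.trans (dvd_pow_self d (by norm_num))).mul_right _))
  · intro i
    simp only
    have h1 := hlow (D.σ i (x ^ p), D.σ i W)
    rw [hpair] at h1
    simp only at h1
    have e1 : (((p : ℂ) + 1) * D.σ i W - D.σ i (x ^ p)) / p = D.σ i (W - d) := by
      rw [hsu, map_sub]
      field_simp
      ring
    rw [e1, ← map_pow, ← map_mul, ← mul_pow, ← map_pow] at h1
    have e2 : W ^ (p + 1) = y ^ (q * (p + 1)) := by rw [hW, ← pow_mul]
    rw [e2, map_pow, norm_pow, map_pow, norm_pow] at h1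
    refine h1.trans (mul_le_mul_of_nonneg_right (by linarith) ?_)
    positivity
  · intro i
    rw [Real.rpow_natCast]
    obtain ⟨M, hM⟩ : ∃ M : ℝ, M = max (‖D.σ i x‖ ^ p) (‖D.σ i y‖ ^ q) := ⟨_, rfl⟩
    have hM0 : 0 < M := by rw [hM]; exact hpos i
    have hpr := hpair i
    simp only
    rw [← hM] at hpr ⊢
    rw [Prod.norm_def] at hpr
    have hW1 : ‖D.σ i W‖ ≤ M := by rw [← hpr]; exact le_max_right _ _
    have hu1 : ‖D.σ i (x ^ p)‖ ≤ M := by rw [← hpr]; exact le_max_left _ _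
    have hd1 : ‖D.σ i d‖ ≤ M := by
      have h1 : (p : ℂ) * D.σ i d = D.σ i (x ^ p) - D.σ i W := by rw [hsu]; ring
      have h2 : p * ‖D.σ i d‖ ≤ 2 * M := by
        calc (p : ℝ) * ‖D.σ i d‖ = ‖(p : ℂ) * D.σ i d‖ := by
              rw [norm_mul, Complex.norm_natCast]
          _ = ‖D.σ i (x ^ p) - D.σ i W‖ := by rw [h1]
          _ ≤ ‖D.σ i (x ^ p)‖ + ‖D.σ i W‖ := norm_sub_le _ _
          _ ≤ 2 * M := by linarith
      have h3 : 2 * ‖D.σ i d‖ ≤ p * ‖D.σ i d‖ := mul_le_mul_of_nonneg_right hp1 (norm_nonneg _)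
      linarith
    have h1 := TT_bound (D.σ i (W - d)) (D.σ i d) (3 * M)
      (by
        rw [map_sub]
        have := norm_sub_le (D.σ i W) (D.σ i d)
        linarith)
      (by
        rw [← map_add, sub_add_cancel]
        linarith) (1 + p)
    rw [← TT_map, ← hG] at h1
    have e1 : (3 * M) ^ (1 + p) = (3 * M) ^ (p - 1) * (3 * M) ^ 2 := by
      rw [← pow_add]
      congr 1
      omega
    rw [e1, ← mul_assoc] at h1
    have h2 := le_of_mul_le_mul_right h1 (by positivity)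
    have h3 : (3 : ℝ) ^ (p - 1) ≤ 3 ^ (1 + p) := pow_le_pow_right₀ (by norm_num) (by omega)
    push_cast at h2
    calc ‖D.σ i G‖ ≤ (1 + p) ^ 2 * (3 * M) ^ (p - 1) := h2
      _ = (1 + p) ^ 2 * 3 ^ (p - 1) * M ^ (p - 1) := by rw [mul_pow]; ring
      _ ≤ (1 + p) ^ 2 * 3 ^ (1 + p) * M ^ (p - 1) := by gcongr
      _ = C₂ * M ^ (p - 1) := by rw [hC₂]
      _ ≤ K * M ^ (p - 1) := mul_le_mul_of_nonneg_right (by linarith) (by positivity)
  · simp only
    rw [hmain, hF]
    exact ⟨-(p ^ 2 * G), by ring⟩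

end Pool.Agent.N572.GAMean2
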